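import Pool.Agent.Helper77.K3.DefsI
import Pool.Agent.Helper2.RO.Final
import Pool.Agent.Helper2.K3.baseB
import Pool.Agent.Helper33.K3.coord

/-!
# Kleinian affine structures in dimension three: an invariant indefinite form

If the linear holonomy preserves a nondegenerate indefinite quadratic form then `Ω = ℝ³`.  This is
the rank one theorem, applied after a linear change of coordinates which makes the form diagonal.
-/

set_option autoImplicit false

open Set Filter Topology Matrix

namespace Pool.Agent.Helper29.K3.form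

open Pool.Agent.Helper77.K3 Pool.Agent.Helper2.K3.baseB Pool.Agent.Helper2.MK

section dev

variable (D : KData) {ι : Type} [Fintype ι] (T : E ≃ₗ[ℝ] EuclideanSpace ℝ ι)

/-- conjugation by a linear isomorphism -/
noncomputable def conjA (g : Aff3) : EuclideanSpace ℝ ι ≃ᵃ[ℝ] EuclideanSpace ℝ ι :=
  T.symm.toAffineEquiv.trans (g.trans T.toAffineEquiv)

theorem conjA_apply (g : Aff3) (x : EuclideanSpace ℝ ι) : conjA T g x = T (g (T.symm x)) := rfl

theorem conjA_linear (g : Aff3) (x : EuclideanSpace ℝ ι) :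
    (conjA T g).linear x = T (g.linear (T.symm x)) := rfl

/-- the developed picture in the new coordinates -/
noncomputable def mkDev : AffineDeveloping (EuclideanSpace ℝ ι) D.Γ D.Ω where
  dev y := T y.1
  hol g := conjA T g.1
  dev_local := T.toContinuousLinearEquiv.toHomeomorph.isLocalHomeomorph.comp (devLoc D)
  hol_mul g g' x := by
    rw [conjA_apply, conjA_apply, conjA_apply, T.symm_apply_apply]
    rfl
  dev_smul g y := by
    rw [conjA_apply, T.symm_apply_apply, smul_val]
  volume_hol g := by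
    have h : ((conjA T g.1).linear : EuclideanSpace ℝ ι →ₗ[ℝ] EuclideanSpace ℝ ι)
        = (T : E →ₗ[ℝ] EuclideanSpace ℝ ι) ∘ₗ (g.1.linear : E →ₗ[ℝ] E)
          ∘ₗ (T.symm : EuclideanSpace ℝ ι →ₗ[ℝ] E) := rfl
    show |LinearMap.det ((conjA T g.1).linear : EuclideanSpace ℝ ι →ₗ[ℝ] EuclideanSpace ℝ ι)| = 1
    rw [h, LinearMap.det_conj]
    exact D.det g.1 g.2
  covering :=
    { continuous_smul := fun g => continuous_const_smul g
      free := isFree D
      proper := isPD D
      cocompact := isCoc D }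

end dev

/-- Among three signs, not all equal, one is different from the two others. -/
theorem signs (w : Fin 3 → ℝ) (hw : ∀ i, w i = -1 ∨ w i = 1) (h1 : ∃ i, w i = 1)
    (h2 : ∃ i, w i = -1) : ∃ (s : ℝ) (i : Fin 3), (s = 1 ∨ s = -1) ∧ s * w i = -1 ∧
      ∀ j, j ≠ i → s * w j = 1 := by
  obtain ⟨a, ha⟩ := h1
  obtain ⟨b, hb⟩ := h2
  have h3 : ∀ i : Fin 3, i = 0 ∨ i = 1 ∨ i = 2 := by decide
  rcases hw 0 with h0 | h0 <;> rcases hw 1 with h1 | h1 <;> rcases hw 2 with h2 | h2
  · exfalso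
    rcases h3 a with rfl | rfl | rfl <;> linarith
  · refine ⟨-1, 2, Or.inr rfl, by rw [h2]; norm_num, ?_⟩
    intro j hj
    rcases h3 j with rfl | rfl | rfl
    · rw [h0]; norm_num
    · rw [h1]; norm_num
    · exact absurd rfl hj
  · refine ⟨-1, 1, Or.inr rfl, by rw [h1]; norm_num, ?_⟩
    intro j hj
    rcases h3 j with rfl | rfl | rfl
    · rw [h0]; norm_num
    · exact absurd rfl hj
    · rw [h2]; norm_num
  · refine ⟨1, 0, Or.inl rfl, by rw [h0]; norm_num, ?_⟩
    intro j hj
    rcases h3 j with rfl | rfl | rfl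
    · exact absurd rfl hj
    · rw [h1]; norm_num
    · rw [h2]; norm_num
  · refine ⟨-1, 0, Or.inr rfl, by rw [h0]; norm_num, ?_⟩
    intro j hj
    rcases h3 j with rfl | rfl | rfl
    · exact absurd rfl hj
    · rw [h1]; norm_num
    · rw [h2]; norm_num
  · refine ⟨1, 1, Or.inl rfl, by rw [h1]; norm_num, ?_⟩
    intro j hj
    rcases h3 j with rfl | rfl | rfl
    · rw [h0]; norm_num
    · exact absurd rfl hj
    · rw [h2]; norm_num
  · refine ⟨1, 2, Or.inl rfl, by rw [h2]; norm_num, ?_⟩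
    intro j hj
    rcases h3 j with rfl | rfl | rfl
    · rw [h0]; norm_num
    · rw [h1]; norm_num
    · exact absurd rfl hj
  · exfalso
    rcases h3 b with rfl | rfl | rfl <;> linarith

/-- Diagonalisation of an indefinite form, with exactly one negative sign. -/
theorem diagonalise (B : M3) (hB : Bᵀ = B) (hdet : B.det ≠ 0) (hp : ∃ x : E, 0 < x ⬝ᵥ (B *ᵥ x))
    (hn : ∃ x : E, x ⬝ᵥ (B *ᵥ x) < 0) :
    ∃ (T : E ≃ₗ[ℝ] (Fin 3 → ℝ)) (s : ℝ) (w : Fin 3 → ℝ) (i₀ : Fin 3),
      (∀ x y, s * (x ⬝ᵥ (B *ᵥ y)) = ∑ i, w i * (T x i * T y i)) ∧ w i₀ = -1 ∧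
      ∀ j, j ≠ i₀ → w j = 1 := by
  set β : E →ₗ[ℝ] E →ₗ[ℝ] ℝ := Matrix.toLinearMap₂' ℝ B with hβ
  have hβa : ∀ x y, β x y = x ⬝ᵥ (B *ᵥ y) := fun x y => Matrix.toLinearMap₂'_apply' B x y
  have hsymm : ∀ x y, β x y = β y x := by
    intro x y
    rw [hβa, hβa, dotProduct_mulVec, ← mulVec_transpose, hB, dotProduct_comm]
  set Q : QuadraticForm ℝ E := LinearMap.BilinMap.toQuadraticMap β with hQ
  have hQa : ∀ x, Q x = β x x := fun x => rfl
  have hassoc : QuadraticMap.associated (R := ℝ) Q = β :=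
    QuadraticMap.associated_left_inverse ℝ hsymm
  obtain ⟨w, hw, ⟨e⟩⟩ := QuadraticForm.equivalent_one_neg_one_weighted_sum_squared Q (by
    rw [hassoc]
    exact LinearMap.separatingLeft_toLinearMap₂'_of_det_ne_zero' hdet)
  set c : Fin 3 ≃ Fin (Module.finrank ℝ E) := (finCongr (Module.finrank_fin_fun ℝ)).symm with hc
  have he : ∀ x, Q x = ∑ i, w i * (e x i * e x i) := by
    intro x
    have h := e.map_app x
    rw [QuadraticMap.weightedSumSquares_apply] at h
    simp only [smul_eq_mul] at h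
    exact h.symm
  set T : E ≃ₗ[ℝ] (Fin 3 → ℝ) := e.toLinearEquiv.trans (LinearEquiv.funCongrLeft ℝ ℝ c) with hT
  have hTa : ∀ x i, T x i = e x (c i) := fun x i => rfl
  have heT : ∀ x, Q x = ∑ i, w (c i) * (T x i * T x i) := by
    intro x
    rw [he, ← Equiv.sum_comp c]
    rfl
  have hpol : ∀ x y, β x y = ∑ i, w (c i) * (T x i * T y i) := by
    intro x y
    have h1 := heT (x + y)
    have h2 := heT x
    have h3 := heT y
    rw [hQa] at h1 h2 h3
    have e1 : ∀ z, β (x + y) z = β x z + β y z := fun z => by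
      rw [map_add]; rfl
    rw [map_add, e1, e1, hsymm y x, h2, h3] at h1
    have h4 : ∑ i, w (c i) * (T (x + y) i * T (x + y) i) = ∑ i, w (c i) * (T x i * T x i)
        + ∑ i, w (c i) * (T y i * T y i) + 2 * ∑ i, w (c i) * (T x i * T y i) := by
      rw [Finset.mul_sum, ← Finset.sum_add_distrib, ← Finset.sum_add_distrib]
      refine Finset.sum_congr rfl fun i _ => ?_
      rw [map_add, Pi.add_apply]
      ring
    rw [h4] at h1
    linarith
  have hq : ∀ x, x ⬝ᵥ (B *ᵥ x) = ∑ i, w (c i) * (T x i * T x i) := by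
    intro x
    rw [← hβa, hpol]
  obtain ⟨s, i₀, hs, h0, h1⟩ := signs (fun i => w (c i)) (fun i => hw _) (by
    by_contra hcon
    push Not at hcon
    obtain ⟨x, hx⟩ := hp
    rw [hq] at hx
    have h3 : ∑ i, w (c i) * (T x i * T x i) ≤ 0 := by
      refine Finset.sum_nonpos fun i _ => ?_
      have h4 : w (c i) = -1 := (hw (c i)).resolve_right (hcon i)
      rw [h4]
      nlinarith [mul_self_nonneg (T x i)]
    linarith) (by
    by_contra hcon
    push Not at hcon
    obtain ⟨x, hx⟩ := hn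
    rw [hq] at hx
    have h3 : 0 ≤ ∑ i, w (c i) * (T x i * T x i) := by
      refine Finset.sum_nonneg fun i _ => ?_
      have h4 : w (c i) = 1 := (hw (c i)).resolve_left (hcon i)
      rw [h4]
      nlinarith [mul_self_nonneg (T x i)]
    linarith)
  refine ⟨T, s, fun i => s * w (c i), i₀, ?_, h0, h1⟩
  intro x y
  rw [← hβa, hpol, Finset.mul_sum]
  exact Finset.sum_congr rfl fun i _ => by ring

theorem form : S_form := by
  intro D B hB hdet hp hn hinv
  obtain ⟨T, s, w, i₀, hT, hw0, hw1⟩ := diagonalise B hB hdet hp hn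
  set T' : E ≃ₗ[ℝ] EuclideanSpace ℝ (Fin 3) := T.trans (WithLp.linearEquiv 2 ℝ (Fin 3 → ℝ)).symm
    with hT'
  have hT'a : ∀ x i, T' x i = T x i := fun x i => rfl
  set J : EuclideanSpace ℝ (Fin 3) →L[ℝ] EuclideanSpace ℝ (Fin 3) :=
    LinearMap.toContinuousLinearMap
      { toFun := fun x => WithLp.toLp 2 fun i => w i * x i
        map_add' := by
          intro x y
          ext i
          simp [mul_add]
        map_smul' := by
          intro a x
          ext i
          simp
          ring } with hJ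
  have hJa : ∀ x i, J x i = w i * x i := fun x i => rfl
  have hwsq : ∀ i, w i * w i = 1 := by
    intro i
    by_cases h : i = i₀
    · rw [h, hw0]; norm_num
    · rw [hw1 i h]; norm_num
  have hinner : ∀ x y : EuclideanSpace ℝ (Fin 3), inner ℝ x y = ∑ i, x i * y i := by
    intro x y
    rw [PiLp.inner_apply]
    refine Finset.sum_congr rfl fun i _ => ?_
    simp [mul_comm]
  have key : ∀ x y : EuclideanSpace ℝ (Fin 3),
      inner ℝ (J x) y = s * ((T'.symm x) ⬝ᵥ (B *ᵥ (T'.symm y))) := by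
    intro x y
    rw [hT, hinner]
    refine Finset.sum_congr rfl fun i _ => ?_
    rw [← hT'a, ← hT'a, LinearEquiv.apply_symm_apply, LinearEquiv.apply_symm_apply, hJa]
    ring
  have hBinv : ∀ γ ∈ D.Γ, ∀ x y : E,
      (γ.linear x) ⬝ᵥ (B *ᵥ (γ.linear y)) = x ⬝ᵥ (B *ᵥ y) := by
    intro γ hγ x y
    rw [Pool.Agent.Helper33.K3.linear_mulVec, Pool.Agent.Helper33.K3.linear_mulVec]
    calc (mat γ *ᵥ x) ⬝ᵥ (B *ᵥ (mat γ *ᵥ y)) = x ⬝ᵥ (((mat γ)ᵀ * B * mat γ) *ᵥ y) := by
          rw [← mulVec_mulVec, ← mulVec_mulVec, dotProduct_mulVec x, vecMul_transpose]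
      _ = x ⬝ᵥ (B *ᵥ y) := by rw [hinv γ hγ]
  have : Nonempty D.Ω := nonempty_Ω D
  have : ConnectedSpace D.Ω := Subtype.connectedSpace D.conn
  obtain ⟨Φ, hΦ⟩ := Pool.Agent.Helper2.RO.main_form (mkDev D T') J ∅ (by
    intro x y
    rw [hinner, hinner]
    refine Finset.sum_congr rfl fun i _ => ?_
    rw [hJa, hJa]; ring) (by
    ext x i
    show J (J x) i = x i
    rw [hJa, hJa, ← mul_assoc, hwsq, one_mul]) (by simp) (by
    intro U hU _
    by_cases hU0 : U = ⊥
    · exact Or.inl hU0
    · right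
      obtain ⟨u, huU, hu0⟩ := (Submodule.ne_bot_iff U).1 hU0
      have hker : ∀ x : EuclideanSpace ℝ (Fin 3), J x = -x → ∀ i, i ≠ i₀ → x i = 0 := by
        intro x hx i hi
        have h1 : J x i = (-x) i := by rw [hx]
        have h2 : (-x) i = - x i := rfl
        rw [hJa, hw1 i hi, h2] at h1
        linarith
      have hui : u i₀ ≠ 0 := by
        intro h0
        apply hu0
        ext i
        by_cases hi : i = i₀
        · rw [hi, h0]; rfl
        · rw [hker u (hU u huU) i hi]; rfl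
      intro x hx
      have h3 : x = (x i₀ / u i₀) • u := by
        ext i
        show x i = (x i₀ / u i₀) * u i
        by_cases hi : i = i₀
        · rw [hi, div_mul_cancel₀ _ hui]
        · rw [hker x hx i hi, hker u (hU u huU) i hi, mul_zero]
      rw [h3]
      exact U.smul_mem _ huU) (by
    intro g x y
    show inner ℝ (J ((conjA T' g.1).linear x)) ((conjA T' g.1).linear y) = inner ℝ (J x) y
    rw [conjA_linear, conjA_linear, key, key, LinearEquiv.symm_apply_apply,
      LinearEquiv.symm_apply_apply, hBinv g.1 g.2]) (by simp)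
  refine eq_univ_of_forall fun x => ?_
  obtain ⟨y, hy⟩ := Φ.surjective (T' x)
  have h1 : T' y.1 = T' x := by
    have : (mkDev D T').dev y = T' x := by rw [← hΦ]; exact hy
    exact this
  rw [← T'.injective h1]
  exact y.2

end Pool.Agent.Helper29.K3.form
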