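import Pool.Agent.Helper77.K3.DefsI

/-!
# Flag systems: Lemma D

For a flag `p` the directions `x` of flags with `p.2 x = 0` lie on finitely many lines.
-/

set_option autoImplicit false

open Set Filter Topology Matrix

namespace Pool.Agent.Helper29.K3.lemD

open Pool.Agent.Helper77.K3

/-- three vectors are dependent iff they have a common nonzero annihilator -/
theorem dep_iff (a b c : E) : (∃ v : E, v ≠ 0 ∧ v 0 • a + v 1 • b + v 2 • c = 0) ↔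
    (∃ φ : E, φ ≠ 0 ∧ a ⬝ᵥ φ = 0 ∧ b ⬝ᵥ φ = 0 ∧ c ⬝ᵥ φ = 0) := by
  have h1 := Matrix.exists_vecMul_eq_zero_iff (M := Matrix.of ![a, b, c])
  have h2 := Matrix.exists_mulVec_eq_zero_iff (M := Matrix.of ![a, b, c])
  have h3 : ∀ v : E, v ᵥ* Matrix.of ![a, b, c] = v 0 • a + v 1 • b + v 2 • c := by
    intro v
    ext j
    simp [Matrix.vecMul, dotProduct, Fin.sum_univ_three]
  have h4 : ∀ φ : E, Matrix.of ![a, b, c] *ᵥ φ = 0 ↔ a ⬝ᵥ φ = 0 ∧ b ⬝ᵥ φ = 0 ∧ c ⬝ᵥ φ = 0 := by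
    intro φ
    constructor
    · intro h
      exact ⟨congrFun h 0, congrFun h 1, congrFun h 2⟩
    · rintro ⟨e0, e1, e2⟩
      ext j
      fin_cases j
      · exact e0
      · exact e1
      · exact e2
  simp only [h3] at h1
  simp only [h4] at h2
  rw [h1, ← h2]

/-- a functional killing two independent vectors of `ker φ` is a multiple of `φ` -/
theorem prop_of_kill {a b φ ψ : E} (hφ : φ ≠ 0)
    (hab : ∀ s t : ℝ, s • a + t • b = 0 → s = 0 ∧ t = 0) (h1 : φ ⬝ᵥ a = 0) (h2 : φ ⬝ᵥ b = 0)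
    (h3 : ψ ⬝ᵥ a = 0) (h4 : ψ ⬝ᵥ b = 0) : ∃ c : ℝ, ψ = c • φ := by
  have hφφ : φ ⬝ᵥ φ ≠ 0 := fun h => hφ (dotProduct_self_eq_zero.1 h)
  refine ⟨(ψ ⬝ᵥ φ) / (φ ⬝ᵥ φ), ?_⟩
  by_contra hne
  obtain ⟨v, hv, hv'⟩ := (dep_iff a b φ).2 ⟨ψ - ((ψ ⬝ᵥ φ) / (φ ⬝ᵥ φ)) • φ, sub_ne_zero.2 hne, by
    rw [dotProduct_sub, dotProduct_smul, dotProduct_comm a, dotProduct_comm a, h3, h1]; simp, by
    rw [dotProduct_sub, dotProduct_smul, dotProduct_comm b, dotProduct_comm b, h4, h2]; simp, by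
    rw [dotProduct_sub, dotProduct_smul, dotProduct_comm φ ψ, smul_eq_mul,
      div_mul_cancel₀ _ hφφ, sub_self]⟩
  have h5 : φ ⬝ᵥ (v 0 • a + v 1 • b + v 2 • φ) = 0 := by rw [hv', dotProduct_zero]
  rw [dotProduct_add, dotProduct_add, dotProduct_smul, dotProduct_smul, dotProduct_smul, h1, h2,
    smul_zero, smul_zero, zero_add, zero_add, smul_eq_mul, mul_eq_zero, or_iff_left hφφ] at h5
  rw [h5, zero_smul, add_zero] at hv'
  obtain ⟨h6, h7⟩ := hab _ _ hv'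
  apply hv
  ext i
  fin_cases i
  · exact h6
  · exact h7
  · exact h5

/-- vectors which are not proportional are independent -/
theorem indep_of_not {a b : E} (hb : b ≠ 0) (h : ¬ ∃ t : ℝ, a = t • b) (s t : ℝ)
    (hst : s • a + t • b = 0) : s = 0 ∧ t = 0 := by
  have hs : s = 0 := by
    by_contra hs
    apply h
    refine ⟨-(t / s), ?_⟩
    have h1 : s • a = -(t • b) := eq_neg_of_add_eq_zero_left hst
    have h2 : a = s⁻¹ • (s • a) := by rw [smul_smul, inv_mul_cancel₀ hs, one_smul]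
    rw [h2, h1, smul_neg, smul_smul, ← neg_smul]
    congr 1
    field_simp
  rw [hs, zero_smul, zero_add] at hst
  exact ⟨hs, (smul_eq_zero.1 hst).resolve_right hb⟩

/-- a set of nonzero vectors without three pairwise independent members is covered by finitely
many lines -/
theorem finite_lines (S : Set E) (h0 : ∀ x ∈ S, x ≠ 0)
    (h : ∀ x y z, x ∈ S → y ∈ S → z ∈ S → (∃ t : ℝ, x = t • y) ∨ (∃ t : ℝ, x = t • z) ∨
      (∃ t : ℝ, y = t • z)) :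
    ∃ Z : Finset E, (∀ z ∈ Z, z ≠ 0) ∧ ∀ x ∈ S, ∃ z ∈ Z, ∃ t : ℝ, t ≠ 0 ∧ x = t • z := by
  classical
  have hne : ∀ x ∈ S, ∀ z : E, ∀ t : ℝ, x = t • z → t ≠ 0 := by
    intro x hx z t hxt ht
    apply h0 x hx
    rw [hxt, ht, zero_smul]
  by_cases hS : S.Nonempty
  swap
  · exact ⟨∅, by simp, fun x hx => absurd ⟨x, hx⟩ hS⟩
  obtain ⟨a, ha⟩ := hS
  by_cases h1 : ∀ x ∈ S, ∃ t : ℝ, x = t • a
  · refine ⟨{a}, by simpa using h0 a ha, fun x hx => ⟨a, Finset.mem_singleton_self a, ?_⟩⟩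
    obtain ⟨t, ht⟩ := h1 x hx
    exact ⟨t, hne x hx a t ht, ht⟩
  push Not at h1
  obtain ⟨b, hb, hba⟩ := h1
  refine ⟨{a, b}, ?_, ?_⟩
  · intro z hz
    rw [Finset.mem_insert, Finset.mem_singleton] at hz
    rcases hz with rfl | rfl
    · exact h0 _ ha
    · exact h0 _ hb
  · intro x hx
    rcases h x b a hx hb ha with ⟨t, ht⟩ | ⟨t, ht⟩ | ⟨t, ht⟩
    · exact ⟨b, by simp, t, hne x hx b t ht, ht⟩
    · exact ⟨a, by simp, t, hne x hx a t ht, ht⟩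
    · exact absurd ht (hba t)

theorem lemD (hflag : S_flag) (hC : S_lemC) : S_lemD := by
  classical
  intro F p hp
  obtain ⟨-, -, -, hzero, hNC, -, -, -, -⟩ := hflag F
  have hp2 : p.2 ≠ 0 := hp.2.2
  -- flags with the same plane
  obtain ⟨Z1, hZ1, hZ1'⟩ := finite_lines {x | ∃ c : ℝ, c ≠ 0 ∧ (x, c • p.2) ∈ F.fl}
    (by rintro x ⟨c, -, hc⟩; exact hc.2.1) (by
    rintro x y z ⟨a, ha, hxa⟩ ⟨b, hb, hyb⟩ ⟨c, hc, hzc⟩
    obtain ⟨i, j, hij, t, ht⟩ := hC F ![x, y, z] ![a, b, c] p.2 (by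
      intro i; fin_cases i
      · exact ha
      · exact hb
      · exact hc) (by
      intro i; fin_cases i
      · exact hxa
      · exact hyb
      · exact hzc)
    have hx0 : x ≠ 0 := hxa.2.1
    have hy0 : y ≠ 0 := hyb.2.1
    have hz0 : z ≠ 0 := hzc.2.1
    have inv : ∀ u v : E, u ≠ 0 → u = t • v → ∃ t' : ℝ, v = t' • u := by
      intro u v hu huv
      have ht0 : t ≠ 0 := by
        intro h; apply hu; rw [huv, h, zero_smul]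
      exact ⟨t⁻¹, by rw [huv, smul_smul, inv_mul_cancel₀ ht0, one_smul]⟩
    fin_cases i <;> fin_cases j
    · exact absurd rfl hij
    · exact Or.inl ⟨t, ht⟩
    · exact Or.inr (Or.inl ⟨t, ht⟩)
    · exact Or.inl (inv y x hy0 ht)
    · exact absurd rfl hij
    · exact Or.inr (Or.inr ⟨t, ht⟩)
    · exact Or.inr (Or.inl (inv z x hz0 ht))
    · exact Or.inr (Or.inr (inv z y hz0 ht))
    · exact absurd rfl hij)
  -- the other flags
  obtain ⟨Z2, hZ2, hZ2'⟩ := finite_lines {x | ∃ φ : E, (x, φ) ∈ F.fl ∧ p.2 ⬝ᵥ x = 0 ∧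
      ¬ ∃ c : ℝ, φ = c • p.2} (by rintro x ⟨φ, hφ, -⟩; exact hφ.2.1) (by
    rintro x y z ⟨φ, hx, hpx, hφ⟩ ⟨ψ, hy, hpy, hψ⟩ ⟨χ, hz, hpz, hχ⟩
    by_contra hcon
    push Not at hcon
    obtain ⟨hxy, hxz, hyz⟩ := hcon
    have hx0 : x ≠ 0 := hx.2.1
    have hy0 : y ≠ 0 := hy.2.1
    have hz0 : z ≠ 0 := hz.2.1
    have ixy := indep_of_not hy0 (not_exists.2 hxy)
    have ixz := indep_of_not hz0 (not_exists.2 hxz)
    have iyz := indep_of_not hz0 (not_exists.2 hyz)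
    have iyx : ∀ s t : ℝ, s • y + t • x = 0 → s = 0 ∧ t = 0 := fun s t h => by
      rw [add_comm] at h; exact (ixy t s h).symm
    have izx : ∀ s t : ℝ, s • z + t • x = 0 → s = 0 ∧ t = 0 := fun s t h => by
      rw [add_comm] at h; exact (ixz t s h).symm
    have izy : ∀ s t : ℝ, s • z + t • y = 0 → s = 0 ∧ t = 0 := fun s t h => by
      rw [add_comm] at h; exact (iyz t s h).symm
    have zx := hzero _ hx
    have zy := hzero _ hy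
    have zz := hzero _ hz
    simp only at zx zy zz
    -- the values are nonzero
    have m01 : φ ⬝ᵥ y ≠ 0 := fun h => hφ (prop_of_kill hp2 ixy hpx hpy zx h)
    have m02 : φ ⬝ᵥ z ≠ 0 := fun h => hφ (prop_of_kill hp2 ixz hpx hpz zx h)
    have m10 : ψ ⬝ᵥ x ≠ 0 := fun h => hψ (prop_of_kill hp2 iyx hpy hpx zy h)
    have m12 : ψ ⬝ᵥ z ≠ 0 := fun h => hψ (prop_of_kill hp2 iyz hpy hpz zy h)
    have m20 : χ ⬝ᵥ x ≠ 0 := fun h => hχ (prop_of_kill hp2 izx hpz hpx zz h)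
    have m21 : χ ⬝ᵥ y ≠ 0 := fun h => hχ (prop_of_kill hp2 izy hpz hpy zz h)
    have P : 0 < (φ ⬝ᵥ y) * (ψ ⬝ᵥ x) := lt_of_le_of_ne (hNC _ hx _ hy) (mul_ne_zero m01 m10).symm
    have Q : 0 < (φ ⬝ᵥ z) * (χ ⬝ᵥ x) := lt_of_le_of_ne (hNC _ hx _ hz) (mul_ne_zero m02 m20).symm
    have R : 0 < (ψ ⬝ᵥ z) * (χ ⬝ᵥ y) := lt_of_le_of_ne (hNC _ hy _ hz) (mul_ne_zero m12 m21).symm
    -- a linear relation
    obtain ⟨v, hv, hrel⟩ := (dep_iff x y z).2 ⟨p.2, hp2, by rw [dotProduct_comm]; exact hpx, by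
      rw [dotProduct_comm]; exact hpy, by rw [dotProduct_comm]; exact hpz⟩
    have c2 : v 2 ≠ 0 := by
      intro h
      rw [h, zero_smul, add_zero] at hrel
      obtain ⟨h1, h2⟩ := ixy _ _ hrel
      apply hv
      ext i
      fin_cases i
      · exact h1
      · exact h2
      · exact h
    have c0 : v 0 ≠ 0 := by
      intro h
      rw [h, zero_smul, zero_add] at hrel
      exact c2 (iyz _ _ hrel).2
    have appl : ∀ θ : E, v 0 * (θ ⬝ᵥ x) + v 1 * (θ ⬝ᵥ y) + v 2 * (θ ⬝ᵥ z) = 0 := by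
      intro θ
      have h := congrArg (fun u => θ ⬝ᵥ u) hrel
      simp only [dotProduct_add, dotProduct_smul, dotProduct_zero, smul_eq_mul] at h
      exact h
    have e0 := appl φ
    have e1 := appl ψ
    have e2 := appl χ
    rw [zx, mul_zero, zero_add] at e0
    rw [zy, mul_zero, add_zero] at e1
    rw [zz, mul_zero, add_zero] at e2
    have k1 : v 1 ^ 2 * ((φ ⬝ᵥ y) * (χ ⬝ᵥ y)) = v 0 * v 2 * ((φ ⬝ᵥ z) * (χ ⬝ᵥ x)) := by
      linear_combination (v 1 * (χ ⬝ᵥ y)) * e0 - (v 2 * (φ ⬝ᵥ z)) * e2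
    have k2 : v 0 * ((ψ ⬝ᵥ x) * (χ ⬝ᵥ y)) = - (v 2 * ((ψ ⬝ᵥ z) * (χ ⬝ᵥ y))) := by
      linear_combination (χ ⬝ᵥ y) * e1
    have k3 : v 0 * (v 1 ^ 2 * (χ ⬝ᵥ y) ^ 2 * ((φ ⬝ᵥ y) * (ψ ⬝ᵥ x)))
        = v 0 * (-(v 2 ^ 2 * (((φ ⬝ᵥ z) * (χ ⬝ᵥ x)) * ((ψ ⬝ᵥ z) * (χ ⬝ᵥ y))))) := by
      linear_combination (v 0 * ((ψ ⬝ᵥ x) * (χ ⬝ᵥ y))) * k1
        + (v 0 * v 2 * ((φ ⬝ᵥ z) * (χ ⬝ᵥ x))) * k2
    have k4 := mul_left_cancel₀ c0 k3
    have k5 : 0 ≤ v 1 ^ 2 * (χ ⬝ᵥ y) ^ 2 * ((φ ⬝ᵥ y) * (ψ ⬝ᵥ x)) := by positivity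
    have k6 : 0 < v 2 ^ 2 * (((φ ⬝ᵥ z) * (χ ⬝ᵥ x)) * ((ψ ⬝ᵥ z) * (χ ⬝ᵥ y))) := by positivity
    linarith)
  refine ⟨Z1 ∪ Z2, ?_, ?_⟩
  · intro z hz
    rcases Finset.mem_union.1 hz with h | h
    · exact hZ1 z h
    · exact hZ2 z h
  · intro q hq hpq
    by_cases h : ∃ c : ℝ, q.2 = c • p.2
    · obtain ⟨c, hc⟩ := h
      have hc0 : c ≠ 0 := by
        intro h0; apply hq.2.2; rw [hc, h0, zero_smul]
      obtain ⟨z, hz, t, ht⟩ := hZ1' q.1 ⟨c, hc0, by rw [← hc]; exact hq⟩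
      exact ⟨z, Finset.mem_union_left _ hz, t, ht⟩
    · obtain ⟨z, hz, t, ht⟩ := hZ2' q.1 ⟨q.2, hq, hpq, h⟩
      exact ⟨z, Finset.mem_union_right _ hz, t, ht⟩

theorem lemDs (hflag : S_flag) (hC : S_lemC) (hdual : S_dual) : S_lemDs := by
  classical
  intro F p hp
  obtain ⟨F', hF'⟩ := hdual F
  obtain ⟨Z, hZ, hZ'⟩ := lemD hflag hC F' (p.2 ∘ Fin.rev, p.1 ∘ Fin.rev) ((hF' p.1 p.2).1 hp)
  have hrev : ∀ a b : E, (a ∘ Fin.rev) ⬝ᵥ (b ∘ Fin.rev) = a ⬝ᵥ b := by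
    intro a b
    have h0 : Fin.rev (0 : Fin 3) = 2 := rfl
    have h1 : Fin.rev (1 : Fin 3) = 1 := rfl
    have h2 : Fin.rev (2 : Fin 3) = 0 := rfl
    simp only [dotProduct, Fin.sum_univ_three, Function.comp_apply, h0, h1, h2]
    ring
  have hinv : ∀ a : E, (a ∘ Fin.rev) ∘ Fin.rev = a := by
    intro a
    ext i
    simp [Function.comp]
  refine ⟨Z.image fun z => z ∘ Fin.rev, ?_, ?_⟩
  · intro z hz h0
    obtain ⟨y, hy, rfl⟩ := Finset.mem_image.1 hz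
    apply hZ y hy
    rw [← hinv y, h0]
    rfl
  · intro q hq hqp
    obtain ⟨z, hz, t, ht, h⟩ := hZ' (q.2 ∘ Fin.rev, q.1 ∘ Fin.rev) ((hF' q.1 q.2).1 hq) (by
      rw [hrev, dotProduct_comm]; exact hqp)
    refine ⟨z ∘ Fin.rev, Finset.mem_image_of_mem _ hz, t, ht, ?_⟩
    have h1 := congrArg (fun a : E => a ∘ Fin.rev) h
    simp only [hinv] at h1
    rw [h1]
    rfl

end Pool.Agent.Helper29.K3.lemD
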